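import Pool.Agent.Lib.helper5.ScpK

open Set TopologicalSpace Cardinal

namespace Pool.Agent.Results.MP_52c726_an.NoDensityCP

/-- The density: the least cardinality of a dense subset. -/
noncomputable def dens (Y : Type) [TopologicalSpace Y] : Cardinal :=
  sInf {κ | ∃ D : Set Y, Dense D ∧ #D = κ}

/-- `V` is the range of a bounded linear projection on `X`. -/
def Complemented {X : Type} [NormedAddCommGroup X] [NormedSpace ℝ X] (V : Submodule ℝ X) : Prop :=
  ∃ P : X →L[ℝ] X, (∀ x, P x ∈ V) ∧ ∀ v ∈ V, P v = v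

/-- The separable complementation property. -/
def SCP (X : Type) [NormedAddCommGroup X] [NormedSpace ℝ X] : Prop :=
  ∀ Y : Submodule ℝ X, IsClosed (Y : Set X) → IsSeparable (Y : Set X) →
    ∃ Z : Submodule ℝ X, Y ≤ Z ∧ IsClosed (Z : Set X) ∧ IsSeparable (Z : Set X) ∧ Complemented Z

/-- A real Banach space with the SCP and a closed subspace `W` of density `κ` contained in no
complemented subspace of density `κ`. -/
theorem result : ∃ (X : Type) (_ : NormedAddCommGroup X) (_ : NormedSpace ℝ X),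
    CompleteSpace X ∧ SCP X ∧ ∃ (κ : Cardinal) (W : Submodule ℝ X),
      IsClosed (W : Set X) ∧ dens W = κ ∧ ¬ ∃ V : Submodule ℝ X,
        W ≤ V ∧ IsClosed (V : Set X) ∧ Complemented V ∧ dens V = κ := by
  obtain ⟨X, _, _, _, h1, s, s1, s2⟩ := H5B.big
  refine ⟨X, _, _, inferInstance, fun Y _ => h1 Y, _, (Submodule.span ℝ s).topologicalClosure,
    isClosed_closure, rfl, fun ⟨V, v1, _, ⟨P, p1, p2⟩, v2⟩ => ?_⟩
  obtain ⟨D, d1, d2⟩ := csInf_mem (⟨_, univ, dense_univ, rfl⟩ :
    {κ | ∃ D : Set V, Dense D ∧ #D = κ}.Nonempty)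
  refine s2 P (fun x k => p2 x (v1 (subset_closure (Submodule.subset_span k)))) (Subtype.val '' D)
    (mk_image_le.trans ((d2.trans v2).trans_le ((csInf_le' (by exact ⟨Subtype.val ⁻¹' Submodule.span ℝ s,
      Subtype.dense_iff.2 (closure_mono fun x k => ⟨⟨x, subset_closure k⟩, k, rfl⟩), rfl⟩)).trans
        ((mk_preimage_of_injective _ _ Subtype.val_injective).trans ?_))))
    (range_subset_iff.2 fun x => Subtype.dense_iff.1 d1 (p1 x))
  rw [Finsupp.span_eq_range_linearCombination, LinearMap.coe_range]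
  refine mk_range_le.trans ?_
  cases isEmpty_or_nonempty s
  · simpa using one_le_aleph0.trans aleph0_le_continuum
  · rw [mk_finsupp_of_infinite', mk_real]
    exact max_le s1 le_rfl

end Pool.Agent.Results.MP_52c726_an.NoDensityCP
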